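import Pool.Agent.H91.WBS

set_option autoImplicit false

open H91.WBS in
theorem Pool.Agent.Results.MP_b2e8e7_an.StrictSwu.result :
    ∃ (X : Type) (_ : NormedAddCommGroup X) (_ : NormedSpace ℝ X) (_ : CompleteSpace X)
    (A : Set X), Bornology.IsBounded A ∧ wbs A ≤ 1 ∧ 1 ≤ swu A ∧ wbs A < 2 * swu A :=
  main
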